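import Pool.Agent.Lib.MP_acafa7_al.F.IfaceC

/-! CNT: the signed number of `01`-edges of a closed walk in three parts. -/

namespace MSG.F78

open Classical MSG

/-- additivity over concatenation -/
theorem cnt01_cat {V : Type} (μ : V → ℕ) (l : List V) (y : V) (m : List V)
    (hl : l.getLast? = some y) : cnt01 μ (l ++ m) = cnt01 μ l + cnt01 μ (y :: m) := by
  induction l with
  | nil => simp at hl
  | cons a t ih =>
    cases t with
    | nil =>
      simp at hl
      subst hl
      simp [cnt01]
    | cons b t =>
      have h2 : (b :: t).getLast? = some y := by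
        simpa [List.getLast?_cons_cons] using hl
      have h3 := ih h2
      simp only [List.cons_append] at h3 ⊢
      simp only [cnt01]
      rw [h3]
      ring

theorem cnt01_zero {V : Type} (μ : V → ℕ) (l : List V) (h : ∀ v ∈ l, μ v = 0) :
    cnt01 μ l = 0 := by
  induction l with
  | nil => simp [cnt01]
  | cons a t ih =>
    cases t with
    | nil => simp [cnt01]
    | cons b t =>
      have ha : μ a = 0 := h a (by simp)
      have hb : μ b = 0 := h b (by simp)
      have h3 := ih (fun v hv => h v (List.mem_cons_of_mem _ hv))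
      simp only [cnt01, ha, hb]
      rw [h3]
      simp

theorem cnt01_no01 {V : Type} (μ : V → ℕ) (l : List V)
    (h : ∀ u v, [u, v] <:+: l → ¬ (μ u = 0 ∧ μ v = 1) ∧ ¬ (μ u = 1 ∧ μ v = 0)) :
    cnt01 μ l = 0 := by
  induction l with
  | nil => simp [cnt01]
  | cons a t ih =>
    cases t with
    | nil => simp [cnt01]
    | cons b t =>
      have h1 := h a b ⟨[], t, by simp⟩
      have h3 := ih (fun u v huv => h u v (huv.trans (List.suffix_cons a (b :: t)).isInfix))
      simp only [cnt01]
      rw [h3, if_neg h1.1, if_neg h1.2]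
      simp

theorem cnt01_no02 {V : Type} (μ : V → ℕ) (hμ : ∀ x, μ x ≤ 2) (l : List V) (x y : V)
    (hx : l.head? = some x) (hy : l.getLast? = some y)
    (h : ∀ u v, [u, v] <:+: l → ¬ (μ u = 0 ∧ μ v = 2) ∧ ¬ (μ u = 2 ∧ μ v = 0)) :
    cnt01 μ l = (if μ x = 0 then 1 else 0) - (if μ y = 0 then 1 else 0) := by
  induction l generalizing x with
  | nil => simp at hx
  | cons a t ih =>
    simp at hx
    subst hx
    cases t with
    | nil =>
      simp at hy
      subst hy
      simp [cnt01]
    | cons b t =>
      have h1 := h a b ⟨[], t, by simp⟩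
      have h2 : (b :: t).getLast? = some y := by
        simpa [List.getLast?_cons_cons] using hy
      have h3 := ih b (by simp) h2
        (fun u v huv => h u v (huv.trans (List.suffix_cons a (b :: t)).isInfix))
      simp only [cnt01]
      rw [h3]
      have ha := hμ a
      have hb := hμ b
      have h4 := h1.1
      have h5 := h1.2
      interval_cases h6 : μ a <;> interval_cases h7 : μ b <;> simp_all <;> ring

theorem cnt_st : CntStatement := by
  intro V G μ hμ x₀ x₁ x₂ l₀ l₁ l₂ h0 h1 h2 hz h02 h01 hx2
  have hx1 : μ x₁ = 0 := hz x₁ (List.mem_of_mem_getLast? (by rw [h0.last]; rfl))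
  have e1 : x₁ :: l₁.tail = l₁ := by
    have h := h1.first
    cases l₁ with
    | nil => simp at h
    | cons a t => simp at h; simp [h]
  have e2 : x₂ :: l₂.tail = l₂ := by
    have h := h2.first
    cases l₂ with
    | nil => simp at h
    | cons a t => simp at h; simp [h]
  have hl : (cat l₀ l₁).getLast? = some x₂ := by
    unfold cat
    by_cases ht : l₁.tail = []
    · have h := h1.last
      rw [← e1, ht] at h
      simp at h
      rw [ht, List.append_nil, h0.last, h]
    · have h := h1.last
      rw [← e1, List.getLast?_cons] at h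
      rw [List.getLast?_append_of_ne_nil _ ht]
      cases h3 : l₁.tail.getLast? with
      | none => exact absurd (List.getLast?_eq_none_iff.1 h3) ht
      | some w => rw [h3] at h; simpa using h
  have s1 : cnt01 μ (cat (cat l₀ l₁) l₂) = cnt01 μ (cat l₀ l₁) + cnt01 μ l₂ := by
    have := cnt01_cat μ (cat l₀ l₁) x₂ l₂.tail hl
    rw [e2] at this
    exact this
  have s2 : cnt01 μ (cat l₀ l₁) = cnt01 μ l₀ + cnt01 μ l₁ := by
    have := cnt01_cat μ l₀ x₁ l₁.tail h0.last
    rw [e1] at this
    exact this
  rw [s1, s2, cnt01_zero μ l₀ hz, cnt01_no01 μ l₂ h01,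
    cnt01_no02 μ hμ l₁ x₁ x₂ h1.first h1.last h02, if_pos hx1, if_neg hx2]
  norm_num

end MSG.F78
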